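import Mathlib

/-!
# Ramsey robustness of Ramsey-minimal graphs

For every number `r ≥ 2` of colours and every finite graph `H` which is `r`-Ramsey-infinite,
the infimum of the Ramsey `r`-robustness of `H` over the `r`-Ramsey-minimal graphs is `0`.

The reason is an averaging argument.  Let `G` be `r`-Ramsey-minimal for `H` and let `v` be a vertex
of `G`.  The proper subgraph `G - v` has an `r`-colouring with no monochromatic copy of `H`; however
it is extended to `G`, all monochromatic copies of `H` contain `v`.  Hence `M_r(H,G)` is at most the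
number of copies of `H` through `v`.  Averaging over `v`, one gets
`|V(G)| * M_r(H,G) ≤ |V(H)| * M_1(H,G)`.
-/

namespace Pool.Agent.Results.MP_742028_co.RobustnessInfimumZero

open SimpleGraph

universe u v

section Defs

variable {V : Type u} {W : Type v}

/-- The copies of `H` in `G`: the subgraphs of `G` isomorphic to `H`. -/
def copies (H : SimpleGraph W) (G : SimpleGraph V) : Set G.Subgraph :=
  {S | Nonempty (H ≃g S.coe)}

/-- The monochromatic copies of `H` in `G` under the `r`-colouring `c` of the edges of `G`: the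
copies of `H` all of whose edges have the same colour. -/
def monoCopies {r : ℕ} (H : SimpleGraph W) (G : SimpleGraph V) (c : G.edgeSet → Fin r) :
    Set G.Subgraph :=
  {S | S ∈ copies H G ∧ ∃ i : Fin r, ∀ e : G.edgeSet, (e : Sym2 V) ∈ S.edgeSet → c e = i}

/-- `G →_r H`: every `r`-colouring of the edges of `G` contains a monochromatic copy of `H`. -/
def Arrows (r : ℕ) (G : SimpleGraph V) (H : SimpleGraph W) : Prop :=
  ∀ c : G.edgeSet → Fin r, (monoCopies H G c).Nonempty

/-- `M_1(H,G)`: the number of copies of `H` in `G`. -/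
noncomputable def copyNumber (H : SimpleGraph W) (G : SimpleGraph V) : ℕ :=
  (copies H G).ncard

/-- The `r`-multiplicity `M_r(H,G)`: the minimum over all `r`-colourings of the edges of `G` of the
number of monochromatic copies of `H`. -/
noncomputable def ramseyMultiplicity (r : ℕ) (H : SimpleGraph W) (G : SimpleGraph V) : ℕ :=
  ⨅ c : G.edgeSet → Fin r, (monoCopies H G c).ncard

/-- The Ramsey `r`-robustness `M_r(H,G) / M_1(H,G)` of `H` in `G`. -/
noncomputable def robustness (r : ℕ) (H : SimpleGraph W) (G : SimpleGraph V) : ℝ :=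
  (ramseyMultiplicity r H G : ℝ) / (copyNumber H G : ℝ)

/-- `G` is `r`-Ramsey-minimal for `H`: `G →_r H`, and no proper subgraph of `G` has this
property. -/
def IsRamseyMinimal (r : ℕ) (H : SimpleGraph W) (G : SimpleGraph V) : Prop :=
  Arrows r G H ∧ ∀ S : G.Subgraph, S ≠ ⊤ → ¬ Arrows r S.coe H

/-- The type of finite graphs, on the vertex sets `Fin n`. -/
abbrev FinGraph : Type := Σ n : ℕ, SimpleGraph (Fin n)

/-- Isomorphism of finite graphs. -/
def isoSetoid : Setoid FinGraph where
  r G G' := Nonempty (G.2 ≃g G'.2)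
  iseqv :=
    { refl := fun _ => ⟨Iso.refl⟩
      symm := fun ⟨e⟩ => ⟨e.symm⟩
      trans := fun ⟨e⟩ ⟨f⟩ => ⟨e.trans f⟩ }

/-- The family `M_r(H)` of `r`-Ramsey-minimal graphs for `H`, up to isomorphism. -/
def minimalFamily (r : ℕ) (H : SimpleGraph W) : Set (Quotient isoSetoid) :=
  {q | ∃ G : FinGraph, Quotient.mk isoSetoid G = q ∧ IsRamseyMinimal r H G.2}

/-- `H` is `r`-Ramsey-infinite: the family `M_r(H)` is infinite. -/
def IsRamseyInfinite (r : ℕ) (H : SimpleGraph W) : Prop :=
  (minimalFamily r H).Infinite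

/-- The set of all values of the robustness of `H` in `r`-Ramsey-minimal graphs for `H`. -/
def robustnessValues (r : ℕ) (H : SimpleGraph W) : Set ℝ :=
  {x | ∃ G : FinGraph, IsRamseyMinimal r H G.2 ∧ x = robustness r H G.2}

end Defs

section Proof

variable {V : Type u} {W : Type v}

lemma verts_card_of_mem_copies {H : SimpleGraph W} {G : SimpleGraph V} {S : G.Subgraph}
    (hS : S ∈ copies H G) : S.verts.ncard = Nat.card W := by
  obtain ⟨e⟩ := hS
  rw [← Nat.card_coe_set_eq]
  exact Nat.card_congr e.toEquiv.symm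

/-- A colouring of the subgraph `S` extends to a colouring of `G`. -/
lemma exists_extension {r : ℕ} (hr : 0 < r) {G : SimpleGraph V} (S : G.Subgraph)
    (c' : S.coe.edgeSet → Fin r) :
    ∃ c : G.edgeSet → Fin r, ∀ (e' : S.coe.edgeSet) (e : G.edgeSet),
      (e : Sym2 V) = Sym2.map Subtype.val (e' : Sym2 S.verts) → c e = c' e' := by
  classical
  refine ⟨fun e => if h : ∃ e' : S.coe.edgeSet, (e : Sym2 V) = Sym2.map Subtype.val e'.1
    then c' h.choose else ⟨0, hr⟩, ?_⟩
  intro e' e he
  have h : ∃ e' : S.coe.edgeSet, (e : Sym2 V) = Sym2.map Subtype.val e'.1 := ⟨e', he⟩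
  simp only [h, dif_pos]
  congr 1
  have h2 := h.choose_spec
  apply Subtype.ext
  apply Sym2.map.injective Subtype.val_injective
  rw [← h2, he]

/-- If `T` is a copy of `H` in `G` that lies in the subgraph `S`, then the corresponding subgraph
of `S` is a copy of `H`. -/
lemma restrict_mem_copies {H : SimpleGraph W} {G : SimpleGraph V} {S T : G.Subgraph}
    (hT : T ∈ copies H G) (hTS : T ≤ S) : S.restrict T ∈ copies H S.coe := by
  obtain ⟨e⟩ := hT
  refine ⟨e.trans ?_⟩
  refine
    { toFun := fun x => ⟨⟨x.1, hTS.1 x.2⟩, x.2⟩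
      invFun := fun x => ⟨x.1.1, x.2⟩
      left_inv := fun x => rfl
      right_inv := fun x => rfl
      map_rel_iff' := ?_ }
  intro a b
  simp only [Equiv.coe_fn_mk, Subgraph.coe_adj]
  constructor
  · intro h
    exact h.2
  · intro h
    exact ⟨hTS.2 h, h⟩

/-- If the subgraph `S` of `G` does not arrow `H`, then some colouring of `G` has no monochromatic
copy of `H` inside `S`. -/
lemma exists_colouring {r : ℕ} (hr : 0 < r) {H : SimpleGraph W} {G : SimpleGraph V}
    (S : G.Subgraph) (hS : ¬ Arrows r S.coe H) :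
    ∃ c : G.edgeSet → Fin r, ∀ T ∈ monoCopies H G c, ¬ T ≤ S := by
  unfold Arrows at hS
  push Not at hS
  obtain ⟨c', hc'⟩ := hS
  obtain ⟨c, hc⟩ := exists_extension hr S c'
  refine ⟨c, ?_⟩
  intro T hT hTS
  obtain ⟨hTc, i, hi⟩ := hT
  have : S.restrict T ∈ monoCopies H S.coe c' := by
    refine ⟨restrict_mem_copies hTc hTS, i, ?_⟩
    intro e' he'
    have hmem : Sym2.map Subtype.val (e' : Sym2 S.verts) ∈ T.edgeSet := by
      obtain ⟨e', he''⟩ := e'
      induction e' using Sym2.ind with
      | _ x y =>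
        simp only [Sym2.map_mk]
        exact he'.2
    have hG : Sym2.map Subtype.val (e' : Sym2 S.verts) ∈ G.edgeSet := T.edgeSet_subset hmem
    rw [← hc e' ⟨_, hG⟩ rfl]
    exact hi ⟨_, hG⟩ hmem
  rw [hc'] at this
  exact this

/-- `M_r(H,G)` is at most the number of copies of `H` through any given vertex of the minimal
graph `G`. -/
lemma ramseyMultiplicity_le [Finite V] {r : ℕ} (hr : 0 < r) {H : SimpleGraph W} {G : SimpleGraph V}
    (hG : IsRamseyMinimal r H G) (v : V) :
    ramseyMultiplicity r H G ≤ {T | T ∈ copies H G ∧ v ∈ T.verts}.ncard := by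
  have hne : (⊤ : G.Subgraph).deleteVerts {v} ≠ ⊤ := by
    intro h
    have : v ∈ ((⊤ : G.Subgraph).deleteVerts {v}).verts := by rw [h]; trivial
    simp at this
  obtain ⟨c, hc⟩ := exists_colouring hr _ (hG.2 _ hne)
  refine le_trans (ciInf_le (OrderBot.bddBelow _) c) ?_
  refine Set.ncard_le_ncard ?_ (Set.toFinite _)
  intro T hT
  refine ⟨hT.1, ?_⟩
  by_contra hv
  apply hc T hT
  constructor
  · intro x hx
    simp only [Subgraph.deleteVerts_verts, Subgraph.verts_top]
    refine ⟨trivial, ?_⟩
    rintro rfl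
    exact hv hx
  · intro x y hxy
    simp only [Subgraph.deleteVerts_adj, Subgraph.verts_top, Subgraph.top_adj]
    have hx := T.edge_vert hxy
    have hy := T.edge_vert hxy.symm
    refine ⟨trivial, ?_, trivial, ?_, T.adj_sub hxy⟩
    · rintro rfl
      exact hv hx
    · rintro rfl
      exact hv hy

/-- Sanity check: `G →_r H` holds exactly when `M_r(H,G) ≥ 1`. -/
lemma arrows_iff_one_le_ramseyMultiplicity [Finite V] {r : ℕ} (hr : 0 < r) (H : SimpleGraph W)
    (G : SimpleGraph V) : Arrows r G H ↔ 1 ≤ ramseyMultiplicity r H G := by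
  have : Nonempty (G.edgeSet → Fin r) := ⟨fun _ => ⟨0, hr⟩⟩
  unfold Arrows ramseyMultiplicity
  constructor
  · intro h
    exact le_ciInf fun c => (Set.ncard_pos (Set.toFinite _)).2 (h c)
  · intro h c
    exact (Set.ncard_pos (Set.toFinite _)).1 (h.trans (ciInf_le (OrderBot.bddBelow _) c))

/-- Double counting: the averaging inequality. -/
lemma card_mul_ramseyMultiplicity_le [Finite V] {r : ℕ} (hr : 0 < r) {H : SimpleGraph W}
    {G : SimpleGraph V} (hG : IsRamseyMinimal r H G) :
    Nat.card V * ramseyMultiplicity r H G ≤ Nat.card W * copyNumber H G := by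
  classical
  have := Fintype.ofFinite V
  have := Fintype.ofFinite G.Subgraph
  have h1 : Nat.card V * ramseyMultiplicity r H G
      ≤ ∑ v : V, {T | T ∈ copies H G ∧ v ∈ T.verts}.ncard := by
    rw [Nat.card_eq_fintype_card, ← smul_eq_mul, ← Finset.card_univ, ← Finset.sum_const]
    exact Finset.sum_le_sum fun v _ => ramseyMultiplicity_le hr hG v
  refine h1.trans (le_of_eq ?_)
  have h2 : ∀ v : V, {T | T ∈ copies H G ∧ v ∈ T.verts}.ncard
      = ∑ T ∈ (copies H G).toFinset, if v ∈ T.verts then 1 else 0 := by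
    intro v
    rw [Set.ncard_eq_toFinset_card', ← Finset.card_filter]
    congr 1
    ext T
    simp
  simp_rw [h2]
  rw [Finset.sum_comm]
  have h3 : ∀ T ∈ (copies H G).toFinset, (∑ v : V, if v ∈ T.verts then 1 else 0) = Nat.card W := by
    intro T hT
    rw [← Finset.card_filter, ← verts_card_of_mem_copies (Set.mem_toFinset.1 hT),
      Set.ncard_eq_toFinset_card']
    congr 1
    ext v
    simp
  rw [Finset.sum_congr rfl h3, Finset.sum_const, smul_eq_mul, mul_comm, copyNumber,
    Set.ncard_eq_toFinset_card']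

/-- The quantitative bound: the robustness of `H` in an `r`-Ramsey-minimal graph `G` is at most
`|V(H)| / |V(G)|`. -/
theorem robustness_le {r n : ℕ} (hr : 0 < r) {H : SimpleGraph W}
    {G : SimpleGraph (Fin n)} (hn : 0 < n) (hG : IsRamseyMinimal r H G) :
    robustness r H G ≤ (Nat.card W : ℝ) / (n : ℝ) := by
  have h := card_mul_ramseyMultiplicity_le hr hG
  rw [Nat.card_eq_fintype_card, Fintype.card_fin] at h
  have hpos : 0 < copyNumber H G := by
    obtain ⟨S, hS⟩ := hG.1 (fun _ => ⟨0, hr⟩)
    exact (Set.ncard_pos (Set.toFinite _)).2 ⟨S, hS.1⟩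
  unfold robustness
  rw [div_le_div_iff₀ (by exact_mod_cast hpos) (by exact_mod_cast hn)]
  have h' : (n : ℝ) * (ramseyMultiplicity r H G : ℝ) ≤ (Nat.card W : ℝ) * (copyNumber H G : ℝ) := by
    exact_mod_cast h
  linarith

/-- If `H` is `r`-Ramsey-infinite, there are minimal graphs with arbitrarily many vertices. -/
lemma exists_large {r : ℕ} {H : SimpleGraph W} (h : IsRamseyInfinite r H) (N : ℕ) :
    ∃ G : FinGraph, N ≤ G.1 ∧ IsRamseyMinimal r H G.2 := by
  by_contra hcon
  push Not at hcon
  apply h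
  have hfin : ({G : FinGraph | G.1 < N}).Finite := by
    have : ({G : FinGraph | G.1 < N}) ⊆
        Set.range (fun x : (Σ n : Fin N, SimpleGraph (Fin n)) => (⟨x.1, x.2⟩ : FinGraph)) := by
      rintro ⟨n, G⟩ hn
      exact ⟨⟨⟨n, hn⟩, G⟩, rfl⟩
    exact (Set.finite_range _).subset this
  refine (hfin.image (Quotient.mk isoSetoid)).subset ?_
  rintro q ⟨G, rfl, hG⟩
  refine ⟨G, ?_, rfl⟩
  by_contra hlt
  exact hcon G (not_lt.1 hlt) hG

end Proof

/-- **Answer to Q1.**  For every `r ≥ 2` and every finite graph `H` which is `r`-Ramsey-infinite,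
the infimum of the Ramsey `r`-robustness of `H` in `G`, over all `r`-Ramsey-minimal graphs `G` for
`H`, is equal to `0`. -/
theorem result (r : ℕ) (hr : 2 ≤ r) {W : Type v} [Finite W] (H : SimpleGraph W)
    (hH : IsRamseyInfinite r H) : IsGLB (robustnessValues r H) 0 := by
  have hr0 : 0 < r := by omega
  constructor
  · rintro x ⟨G, hG, rfl⟩
    exact div_nonneg (Nat.cast_nonneg _) (Nat.cast_nonneg _)
  · intro b hb
    by_contra hlt
    push Not at hlt
    obtain ⟨N, hN⟩ := exists_nat_gt ((Nat.card W : ℝ) / b)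
    obtain ⟨G, hGN, hG⟩ := exists_large hH (N + 1)
    have hn : 0 < G.1 := by omega
    have h1 : b ≤ robustness r H G.2 := hb ⟨G, hG, rfl⟩
    have h2 := robustness_le hr0 hn hG
    have hnpos : (0 : ℝ) < (G.1 : ℝ) := by exact_mod_cast hn
    have h3 : b ≤ (Nat.card W : ℝ) / (G.1 : ℝ) := h1.trans h2
    rw [le_div_iff₀ hnpos] at h3
    rw [div_lt_iff₀ hlt] at hN
    have h4 : (N : ℝ) + 1 ≤ (G.1 : ℝ) := by exact_mod_cast hGN
    nlinarith

end Pool.Agent.Results.MP_742028_co.RobustnessInfimumZero
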